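import Pool.Agent.Run7.h965.MX.Gaps2

/-!
# Systems of variable words all of whose substitutions are patterns of consecutive primes

The questions are about the patterns `n, n + 2, n + 6` and `n, n + 2, n + 6, n + 8` of primes. Here are
large systems of patterns of `k + 1` primes (`k = 2`: triples, `k = 3`: quadruples, all `k` at once), which
are moreover consecutive and isolated.

A word is a finite list of pairs (position, letter), with increasing positions; positions and letters
are natural numbers. In a variable word some letters are replaced by a variable (`none`).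

1. Let `φ_j` be arbitrary integer valued functions of words, growing strictly when a word is continued:
   `φ_j (s) < φ_j (s t)` if the positions of `t` follow those of `s`. There are variable words
   `w_0 < w_1 < …` such that for every `j`, every `k`, all nonempty finite sets `F_0 < F_1 < … < F_k` of
   indices `≥ j` and ALL letters `a_i`, bounded by any function of `w_0, …, w_(i-1)` given in advance,
   the differences `φ_j (s_m) - φ_j (s_0)`, where `s_m` is the word formed by the `w_i (a_i)` with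
   `i ∈ F_0 ∪ … ∪ F_m`, are the distances of `k + 1` consecutive primes: for every `R` there are infinitely
   many primes `n ≡ r_j` modulo `q_j` such that the primes within distance `R` of `n` are exactly the
   `n + φ_j (s_m) - φ_j (s_0)`, `m ≤ k`, and all of them are `≡ r_j` modulo `q_j`. The same holds for the
   multiples `c (φ_j (s_m) - φ_j (s_0))`, for every `c` bounded by any function of the words before `F_0`
   given in advance.

2. Example: let `d_j (p, a)` be arrays of positive integers. There are finite sets `V_i`, `W_i` of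
   positions, `W_i ≠ ∅`, with `V_0 ∪ W_0 < V_1 ∪ W_1 < …` and letters `b_p` such that with
   `x_i (a) = ∑_{p ∈ V_i} d_j (p, b_p) + ∑_{p ∈ W_i} d_j (p, a)`
   and `x_F = ∑_{i ∈ F} x_i (a_i)` ALL vectors `(c x_{F_0}, …, c x_{F_k})` are vectors of `k + 1`
   consecutive prime gaps, for all nonempty finite `F_0 < … < F_k` in `[j, ∞)`, all choices of letters
   `a_i` (bounded by any given function of the earlier positions) and all products `c` of numbers
   `x_i (a_i)`, `i ∈ E`, with `E < F_0`. For instance `n, n + c x_{F_0}, n + c x_{F_0} + c x_{F_1}` are all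
   prime for infinitely many `n`. (So countably many sequences of positive integers can be mixed
   arbitrarily within one system of sums.)
-/

set_option autoImplicit false

namespace Pool.Agent.Results.MP_3efbeb_nt.SystemsOfWords

open Finset

/-- The word formed by the words `w i (a i)`, `i ∈ I`: in the variable word `w i` the letter `a i` is put
in place of the variable `none`. -/
def word (w : ℕ → List (ℕ × Option ℕ)) (a : ℕ → ℕ) (I : Finset ℕ) : List (ℕ × ℕ) :=
  (I.sort (· ≤ ·)).flatMap fun i => (w i).map fun p => (p.1, p.2.getD (a i))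

/-- A sequence of variable words: the variable occurs in each of them, and the positions increase within
each word and from each word to the next one. -/
structure VariableWords (w : ℕ → List (ℕ × Option ℕ)) : Prop where
  var : ∀ i, ∃ p ∈ w i, p.2 = none
  incr : ∀ i, (w i).Pairwise fun x y => x.1 < y.1
  lt : ∀ i, ∀ x ∈ w i, ∀ y ∈ w (i + 1), x.1 < y.1

/-- For every `R` there are infinitely many `n ≡ r` modulo `q` such that the primes within distance `R`
of `n` are exactly the numbers `n + g m`, `m ≤ k`, within this distance. -/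
def ExactlyPrime (q : ℕ) (r : ℤ) (k : ℕ) (g : ℕ → ℤ) : Prop :=
  ∀ R : ℕ, {n : ℕ | (n : ℤ) ≡ r [ZMOD q] ∧ ∀ y : ℤ, |y| ≤ R →
    (Nat.Prime ((n : ℤ) + y).toNat ↔ ∃ m ≤ k, y = g m)}.Infinite

theorem result :
    -- (1) functions of words
    (∀ (φ : ℕ → List (ℕ × ℕ) → ℤ),
      (∀ j s t, s ≠ [] → t ≠ [] → (s ++ t).Pairwise (fun x y => x.1 < y.1) →
        φ j s < φ j (s ++ t)) →
      ∀ q : ℕ → ℕ, (∀ j, 1 ≤ q j) → ∀ r : ℕ → ℤ, (∀ j, IsCoprime (r j) (q j : ℤ)) →
      ∀ H C : List (List (ℕ × Option ℕ)) → ℕ,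
      ∃ w, VariableWords w ∧
        ∀ (j k i₀ c : ℕ) (F : ℕ → Finset ℕ) (a : ℕ → ℕ), j ≤ i₀ → 1 ≤ c →
          (c = 1 ∨ c ≤ C ((List.range i₀).map w)) →
          (∀ l ≤ k, (F l).Nonempty) → (∀ l ≤ k, ∀ i ∈ F l, i₀ ≤ i) →
          (∀ l < k, ∀ i ∈ F l, ∀ i' ∈ F (l + 1), i < i') →
          (∀ i, a i ≤ H ((List.range i).map w)) →
          (∀ m ≤ k, (q j : ℤ) ∣
            c * (φ j (word w a ((range (m + 1)).biUnion F)) - φ j (word w a (F 0)))) ∧
          ExactlyPrime (q j) (r j) k fun m =>
            c * (φ j (word w a ((range (m + 1)).biUnion F)) - φ j (word w a (F 0)))) ∧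
    -- (2) arrays of positive integers
    (∀ d : ℕ → ℕ → ℕ → ℕ, (∀ j p a, 1 ≤ d j p a) →
      ∀ q : ℕ → ℕ, (∀ j, 1 ≤ q j) → ∀ r : ℕ → ℤ, (∀ j, IsCoprime (r j) (q j : ℤ)) → ∀ h : ℕ → ℕ,
      ∃ (V W : ℕ → Finset ℕ) (b : ℕ → ℕ), (∀ i, (W i).Nonempty) ∧ (∀ i, Disjoint (V i) (W i)) ∧
        (∀ i, ∀ x ∈ V i ∪ W i, ∀ y ∈ V (i + 1) ∪ W (i + 1), x < y) ∧
        ∀ (j k : ℕ) (F : ℕ → Finset ℕ) (E : Finset ℕ) (a : ℕ → ℕ), (∀ l ≤ k, (F l).Nonempty) →
          (∀ l ≤ k, ∀ i ∈ F l, j ≤ i) → (∀ l < k, ∀ i ∈ F l, ∀ i' ∈ F (l + 1), i < i') →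
          (∀ i ∈ E, ∀ i' ∈ F 0, i < i') →
          (∀ i, a i ≤ i ∨ ∃ i' < i, ∃ p ∈ V i' ∪ W i', a i ≤ h p) →
          ExactlyPrime (q j) (r j) (k + 1) fun m =>
            (∏ i ∈ E, (∑ p ∈ V i, (d j p (b p) : ℤ) + ∑ p ∈ W i, (d j p (a i) : ℤ))) *
              ∑ l ∈ range m, ∑ i ∈ F l,
                (∑ p ∈ V i, (d j p (b p) : ℤ) + ∑ p ∈ W i, (d j p (a i) : ℤ))) := by
  refine ⟨fun φ hφ q hq r hr H C => ?_, fun d hd q hq r hr h => ?_⟩
  · obtain ⟨w, hw1, hw2, hw3, hw4⟩ :=
      Pool.Agent.Run7.h965.MX.gaps_mult φ hφ q hq r hr H C 0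
    exact ⟨w, ⟨hw1, fun i => (hw2 i).2.1, hw3⟩, hw4⟩
  · exact Pool.Agent.Run7.h965.MX.arrays d hd q hq r hr h

end Pool.Agent.Results.MP_3efbeb_nt.SystemsOfWords
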