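import Pool.Agent.Run7.h672.XC.X12
import Pool.Agent.Run7.h414.HL.A3
import Pool.Agent.Run7.h414.DP.XR

/-!
# Prime triples (0, 2, 6) and prime quadruples (0, 2, 6, 8), displaced by random multiples of a small primorial, inside
# ARBITRARY dense sets of integers without local obstruction

The digits of the random integer `v` are given by a determinantal random set `S` of positions (a determinantal point process
with an arbitrary Hermitian kernel): the digit number `i` is `y i` if `i ∈ S` and `x i ≠ y i` otherwise. Examples (their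
existence is not used and not formalised): the edges of a uniform spanning tree of a graph with `k` edges; stationary
determinantal processes with any symbol which is not almost everywhere `0` or almost everywhere `1` (for example the discrete
sine process with any density); independent digits, for example the integers all of whose digits are `0` or `1`.

Definitions used (in `Pool.Agent.Run7.h414.DP.Law` and `Pool.Agent.Run7.h414.DP.Fam`): `DetLaw`, `GoodPos`, `DetDigits`
(used with `t = 0`: `0 ≤ p v ≤ μ v` with the law `μ` of an integer with determinantal digits).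

Method: the characteristic function is `det (1 + D A)`; the inequality `|det N|² ≤ exp (tr N* N - k)` for
`N = 1 + B D B*`, `A = B* B`, bounds it by `exp (- E)` with an energy `E` which is at least a constant times the number of
the places where the frequency is far from the rational numbers with small denominators. With this input the sieve and the
circle method of the starting library for exchangeable blocks (`Pool.Agent.N625.PT`, in the form for classes of laws of
`Pool.Agent.Run7.h672.XC`) go through.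
-/

set_option autoImplicit false

open Finset Filter
open Pool.Agent.Run7.h414.DP (DC DC_sum DC_nonneg DetDigits fam_dc dc_rcls)
open Pool.Agent.Run7.h414.HL (cop_of)

namespace Pool.Agent.Results.MP_3efbeb_nt.TriplesAndQuadruplesInSets

/-- the product of `1 - 1/q` over the primes `q ≤ y` -/
noncomputable def V (y : ℕ) : ℝ := ∏ q ∈ (Icc 1 y).filter Nat.Prime, (1 - 1 / (q : ℝ))

/-- the multiple of the product of the primes `≤ y` given by the integers `h` and `c + κ v` -/
def Nv (y h : ℕ) (c κ : ℤ) (v : ℕ) : ℤ := ((primorial y * h : ℕ) : ℤ) * (c + κ * v)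

/-- the integers `1 ≤ n ≤ X` such that `n`, `n + 2`, `n + 6`, `n + 8` are prime to `D 0`, `D 1`, `D 2`, `D 3` -/
def Free (D : Fin 4 → ℕ) (X : ℕ) : Finset ℕ :=
  (Icc 1 X).filter (fun n : ℕ => n.Coprime (D 0) ∧ (n + 2).Coprime (D 1) ∧ (n + 6).Coprime (D 2) ∧ (n + 8).Coprime (D 3))

/-- the elements `n` of `A` such that `n + N 0`, `n + 2 + N 1` and `n + 6 + N 2` are prime -/
noncomputable def Triples (A : Finset ℕ) (N : Fin 4 → ℤ) : ℝ :=
  (A.filter (fun n : ℕ => ((n : ℤ) + N 0).toNat.Prime ∧ ((n : ℤ) + 2 + N 1).toNat.Prime ∧ ((n : ℤ) + 6 + N 2).toNat.Prime)).card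

/-- the elements `n` of `A` such that `n + N 0`, `n + 2 + N 1`, `n + 6 + N 2` and `n + 8 + N 3` are prime -/
noncomputable def Quadruples (A : Finset ℕ) (N : Fin 4 → ℤ) : ℝ :=
  (A.filter (fun n : ℕ => ((n : ℤ) + N 0).toNat.Prime ∧ ((n : ℤ) + 2 + N 1).toNat.Prime ∧ ((n : ℤ) + 6 + N 2).toNat.Prime ∧
    ((n : ℤ) + 8 + N 3).toNat.Prime)).card

lemma class_exists (D : ℕ) : ∃ a : ℕ, ∀ l : ℕ, l.Prime → l ∣ D → D ≠ 0 →
    ¬ a ≡ 0 [MOD l] ∧ ¬ a + 2 ≡ 0 [MOD l] ∧ ¬ a + 6 ≡ 0 [MOD l] ∧ ¬ a + 8 ≡ 0 [MOD l] := by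
  obtain ⟨a, ha⟩ := Nat.chineseRemainderOfFinset (fun l => if l = 3 then 2 else if l = 7 then 3 else 1) (fun l => l) D.primeFactors
    (fun l hl => (Nat.prime_of_mem_primeFactors hl).ne_zero) (by
      intro l hl l' hl' hne
      exact (Nat.coprime_primes (Nat.prime_of_mem_primeFactors hl) (Nat.prime_of_mem_primeFactors hl')).2 hne)
  refine ⟨a, fun l hl hlD hD => ?_⟩
  have h1 := ha l (Nat.mem_primeFactors.2 ⟨hl, hlD, hD⟩)
  by_cases h3 : l = 3
  · subst h3
    simp only [if_true] at h1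
    unfold Nat.ModEq at h1 ⊢
    omega
  by_cases h7 : l = 7
  · subst h7
    simp only [show ¬ (7 : ℕ) = 3 by norm_num, if_false, if_true] at h1
    unfold Nat.ModEq at h1 ⊢
    omega
  simp only [h3, h7, if_false] at h1
  have hl1 := hl.one_lt
  have hd : ∀ m : ℕ, a + m ≡ 0 [MOD l] → l ∣ 1 + m := by
    intro m hm
    exact (Nat.modEq_zero_iff_dvd).1 ((h1.symm.add_right m).trans hm)
  refine ⟨fun h => ?_, fun h => ?_, fun h => ?_, fun h => ?_⟩
  · have := hd 0 h
    exact hl1.ne' (Nat.dvd_one.1 this)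
  · exact h3 ((Nat.prime_dvd_prime_iff_eq hl (by norm_num)).1 (hd 2 h))
  · exact h7 ((Nat.prime_dvd_prime_iff_eq hl (by norm_num)).1 (hd 6 h))
  · have h9 : l ∣ 3 * 3 := hd 8 h
    rcases (Nat.Prime.dvd_mul hl).1 h9 with h' | h'
    · exact h3 ((Nat.prime_dvd_prime_iff_eq hl (by norm_num)).1 h')
    · exact h3 ((Nat.prime_dvd_prime_iff_eq hl (by norm_num)).1 h')

lemma free_many (D : Fin 4 → ℕ) (X q : ℕ) (hq : 1 ≤ q) (hD : ∀ j, D j ∣ q) (hqX : q ≤ X) :
    X ≤ (Free D X).card * (2 * q) := by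
  obtain ⟨a, ha⟩ := class_exists q
  have hfree : ∀ n : ℕ, n ≡ a [MOD q] → n.Coprime (D 0) ∧ (n + 2).Coprime (D 1) ∧ (n + 6).Coprime (D 2) ∧ (n + 8).Coprime (D 3) := by
    intro n hn
    have hc : ∀ (m : ℕ) (j : Fin 4), (∀ l : ℕ, l.Prime → l ∣ q → ¬ a + m ≡ 0 [MOD l]) → (n + m).Coprime (D j) := by
      intro m j hm
      by_contra hcop
      obtain ⟨l, hlp, hla, hlb⟩ := Nat.Prime.not_coprime_iff_dvd.1 hcop
      have hlq := hlb.trans (hD j)
      exact hm l hlp hlq (((hn.of_dvd hlq).symm.add_right m).trans ((Nat.modEq_zero_iff_dvd).2 hla))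
    refine ⟨hc 0 0 fun l hlp hlq => ?_, hc 2 1 fun l hlp hlq => ?_, hc 6 2 fun l hlp hlq => ?_, hc 8 3 fun l hlp hlq => ?_⟩
    · exact (ha l hlp hlq (by omega)).1
    · exact (ha l hlp hlq (by omega)).2.1
    · exact (ha l hlp hlq (by omega)).2.2.1
    · exact (ha l hlp hlq (by omega)).2.2.2
  obtain ⟨m, hm⟩ : ∃ m, m = X / q := ⟨_, rfl⟩
  have hm1 : 1 ≤ m := by rw [hm]; exact (Nat.one_le_div_iff hq).2 hqX
  have hcard : m ≤ (Free D X).card := by
    have : (Icc 1 m).card ≤ (Free D X).card := by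
      apply card_le_card_of_injOn (fun i => q * i - (q - 1 - (a + q - 1) % q))
      · intro i hi
        rw [coe_Icc, Set.mem_Icc] at hi
        have hr : (a + q - 1) % q < q := Nat.mod_lt _ hq
        have hqi : q ≤ q * i := Nat.le_mul_of_pos_right _ hi.1
        have hqm : q * i ≤ X := (Nat.mul_le_mul_left q hi.2).trans (by rw [hm]; exact Nat.mul_div_le X q)
        unfold Free
        rw [coe_filter, Set.mem_ofPred_eq, mem_Icc]
        beta_reduce
        refine ⟨⟨by omega, by omega⟩, ?_⟩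
        apply hfree
        have e1 : q * i - (q - 1 - (a + q - 1) % q) + q = q * i + ((a + q - 1) % q + 1) := by omega
        have e2 : (a + q - 1) % q + 1 ≡ a + q - 1 + 1 [MOD q] := (Nat.mod_modEq _ q).add_right 1
        have e3 : a + q - 1 + 1 = a + q := by omega
        rw [e3] at e2
        have e4 : q * i + ((a + q - 1) % q + 1) ≡ 0 + (a + q) [MOD q] := ((Nat.modEq_zero_iff_dvd).2 (dvd_mul_right q i)).add e2
        rw [← e1, zero_add] at e4
        exact Nat.ModEq.add_right_cancel' _ e4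
      · intro i hi i' hi' hii
        rw [coe_Icc, Set.mem_Icc] at hi hi'
        have hr : (a + q - 1) % q < q := Nat.mod_lt _ hq
        have hqi : q ≤ q * i := Nat.le_mul_of_pos_right _ hi.1
        have hqi' : q ≤ q * i' := Nat.le_mul_of_pos_right _ hi'.1
        have : q * i = q * i' := by
          simp only at hii
          omega
        exact Nat.eq_of_mul_eq_mul_left hq this
    rw [Nat.card_Icc] at this
    omega
  have h2 : X < q * m + q := by
    rw [hm]
    exact Nat.lt_mul_div_succ X hq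
  have h3 : q ≤ q * m := Nat.le_mul_of_pos_right _ hm1
  calc X ≤ m * (2 * q) := by nlinarith
    _ ≤ _ := Nat.mul_le_mul_right _ hcard

/-- the laws themselves -/
theorem main : ∀ b L : ℕ, 2 ≤ b → ∀ η : ℝ, 0 < η → ∀ (κ : Fin 4 → ℤ), (∀ j, κ j ≠ 0) →
    ∀ (B J C A K₁ : ℕ) (θ : ℝ), 0 < θ → ∀ ε : ℝ, 0 < ε → ε ≤ 1 → ∃ k₀ : ℕ, ∀ k : ℕ, k₀ ≤ k →
    ∀ μ : Fin 4 → ℕ → ℝ, (∀ j, DC b L η k (μ j)) →
    ∀ y : ℕ, θ * Real.log k ≤ y → y ≤ K₁ * Real.log k →
    ∀ c : Fin 4 → ℤ, (∀ j, |c j| ≤ B * (b : ℤ) ^ k) → ∀ h : Fin 4 → ℕ, (∀ j, 1 ≤ h j ∧ h j ≤ k ^ J) →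
    ∀ X : ℕ, b ^ k ≤ X * k ^ C → X ≤ b ^ k * k ^ C →
      X ≤ (Free (fun j => primorial y * h j) X).card * k ^ (8 * K₁ + 4 * J + 1) ∧
      ∀ S : Finset ℕ, S ⊆ Free (fun j => primorial y * h j) X → X ≤ S.card * k ^ A →
      ∑ v ∈ Fintype.piFinset (fun _ : Fin 4 => range (b ^ k)), (if (∀ j, 0 < Nv y (h j) (c j) (κ j) (v j)) →
        |Triples S (fun j => Nv y (h j) (c j) (κ j) (v j)) - S.card / (V y * (k * Real.log b)) ^ 3| ≤
          ε * (S.card / (V y * (k * Real.log b)) ^ 3) ∧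
        |Quadruples S (fun j => Nv y (h j) (c j) (κ j) (v j)) - S.card / (V y * (k * Real.log b)) ^ 4| ≤
          ε * (S.card / (V y * (k * Real.log b)) ^ 4) then 0 else ∏ j, μ j (v j)) ≤ ε := by
  classical
  intro b L hb η hη κ hκ B J C A K₁ θ hθ ε hε hε1
  have hcls := dc_rcls b L hb η hη
  obtain ⟨k1, h1⟩ := Pool.Agent.Run7.h672.XC.tuple_law hcls 4 κ hκ B J (A + 1) (C + 1) K₁ θ hθ ε hε hε1
  obtain ⟨k2, h2⟩ := Pool.Agent.N625.PT.pow_le_pow_digits b hb (8 * K₁ + 4 * J + C)
  refine ⟨max (max k1 k2) 9, fun k hk μ hμ y hy1 hy2 c hc h hh X hX1 hX2 => ?_⟩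
  have hk9 : 9 ≤ k := by omega
  have hbk := h2 k (by omega)
  have hDj : ∀ j, 1 ≤ primorial y * h j ∧ primorial y * h j ≤ k ^ (2 * K₁ + J) := by
    intro j
    refine ⟨Nat.mul_pos (primorial_pos y) (hh j).1, ?_⟩
    exact Pool.Agent.N625.PT.mult_small K₁ J k y (h j) (by omega) hy2 (hh j).2
  obtain ⟨q, hq⟩ : ∃ q, q = ∏ j : Fin 4, (primorial y * h j) := ⟨_, rfl⟩
  have hq1 : 1 ≤ q := by
    rw [hq]
    exact Nat.one_le_iff_ne_zero.2 (prod_ne_zero_iff.2 fun j _ => by have := (hDj j).1; omega)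
  have hDq : ∀ j, primorial y * h j ∣ q := fun j => by
    rw [hq]
    exact dvd_prod_of_mem (fun j => primorial y * h j) (mem_univ j)
  have hqk : q ≤ k ^ (8 * K₁ + 4 * J) := by
    rw [hq]
    calc ∏ j : Fin 4, (primorial y * h j) ≤ ∏ _j : Fin 4, k ^ (2 * K₁ + J) := Finset.prod_le_prod' fun j _ => (hDj j).2
      _ = _ := by
          rw [prod_const, card_univ, Fintype.card_fin, ← pow_mul]
          congr 1
          ring
  have hkX : k ^ (8 * K₁ + 4 * J) ≤ X := by
    have e1 : k ^ (8 * K₁ + 4 * J) * k ^ C ≤ X * k ^ C := by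
      rw [← pow_add]
      exact hbk.trans hX1
    exact Nat.le_of_mul_le_mul_right e1 (pow_pos (by omega) _)
  have hfree := free_many (fun j => primorial y * h j) X q hq1 hDq (hqk.trans hkX)
  refine ⟨hfree.trans ?_, fun S hS hSX => ?_⟩
  · apply Nat.mul_le_mul_left
    calc 2 * q ≤ k * k ^ (8 * K₁ + 4 * J) := Nat.mul_le_mul (by omega) hqk
      _ = _ := by rw [pow_succ]; ring
  have hS1 : ∀ n ∈ S, 1 ≤ n ∧ n ≤ X ∧ n.Coprime (primorial y * h 0) ∧ (n + 2).Coprime (primorial y * h 1) ∧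
      (n + 6).Coprime (primorial y * h 2) ∧ (n + 8).Coprime (primorial y * h 3) := by
    intro n hn
    have := hS hn
    unfold Free at this
    rw [mem_filter, mem_Icc] at this
    exact ⟨this.1.1, this.1.2, this.2⟩
  obtain ⟨a, ha⟩ : ∃ a : Fin 4 → ℕ, a = ![0, 2, 6, 8] := ⟨_, rfl⟩
  have a0 : a 0 = 0 := by rw [ha]; rfl
  have a1 : a 1 = 2 := by rw [ha]; rfl
  have a2 : a 2 = 6 := by rw [ha]; rfl
  have a3 : a 3 = 8 := by rw [ha]; rfl
  have hX8 : 8 ≤ X := by
    have : k ≤ X := by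
      rcases Nat.eq_zero_or_pos (8 * K₁ + 4 * J) with h' | h'
      · -- use the size of `X` itself
        have e1 : b ^ k ≤ X * k ^ C := hX1
        have e2 : k ^ (8 * K₁ + 4 * J + C) ≤ b ^ k := hbk
        by_contra hcon
        have hK0 : K₁ = 0 := by omega
        rw [hK0, Nat.cast_zero, zero_mul] at hy2
        have hy0 : (y : ℝ) = 0 := le_antisymm hy2 (Nat.cast_nonneg _)
        have hlk : 0 < Real.log k := Real.log_pos (by exact_mod_cast (by omega : 1 < k))
        have : 0 < θ * Real.log k := mul_pos hθ hlk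
        linarith
      · calc k = k ^ 1 := (pow_one k).symm
          _ ≤ k ^ (8 * K₁ + 4 * J) := Nat.pow_le_pow_right (by omega) h'
          _ ≤ X := hkX
    omega
  have haX : ∀ j, a j ≤ X := by
    intro j
    fin_cases j
    · show a 0 ≤ X
      omega
    · show a 1 ≤ X
      omega
    · show a 2 ≤ X
      omega
    · show a 3 ≤ X
      omega
  have hcopj : ∀ j, ∀ i ∈ S, (i + a j).Coprime (primorial y * h j) := by
    intro j i hi
    obtain ⟨_, _, g0, g1, g2, g3⟩ := hS1 i hi
    fin_cases j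
    · show (i + a 0).Coprime (primorial y * h 0)
      rw [a0, add_zero]
      exact g0
    · show (i + a 1).Coprime (primorial y * h 1)
      rw [a1]
      exact g1
    · show (i + a 2).Coprime (primorial y * h 2)
      rw [a2]
      exact g2
    · show (i + a 3).Coprime (primorial y * h 3)
      rw [a3]
      exact g3
  have hkr : (9 : ℝ) ≤ k := by exact_mod_cast hk9
  have hlaw := h1 k (by omega) μ hμ y hy1 hy2 c hc h hh (2 * X) (by
      refine hX1.trans ?_
      exact Nat.mul_le_mul (by omega) (Nat.pow_le_pow_right (by omega) (by omega))) (by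
      calc 2 * X ≤ k * (b ^ k * k ^ C) := Nat.mul_le_mul (by omega) hX2
        _ = b ^ k * k ^ (C + 1) := by rw [pow_succ k C]; ring) S (fun j i => i + a j) (by
      intro j i _ i' _ hii
      simp only at hii
      omega) (by
      intro j i hi
      obtain ⟨g1, g2, _⟩ := hS1 i hi
      have := haX j
      exact ⟨by omega, by omega, hcopj j i hi⟩) (by
      have : 2 * X ≤ S.card * k ^ (A + 1) := by
        calc 2 * X ≤ k * (S.card * k ^ A) := Nat.mul_le_mul (by omega) hSX
          _ = _ := by rw [pow_succ]; ring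
      exact_mod_cast this) (fun _ => 1) (fun _ => Or.inl rfl)
  refine le_trans (sum_le_sum fun v _ => ?_) hlaw
  have hm0 : 0 ≤ ∏ j, μ j (v j) := prod_nonneg fun j _ => DC_nonneg (hμ j) _
  by_cases hgood : (∀ j, 0 < Nv y (h j) (c j) (κ j) (v j)) →
        |Triples S (fun j => Nv y (h j) (c j) (κ j) (v j)) - S.card / (V y * (k * Real.log b)) ^ 3| ≤
          ε * (S.card / (V y * (k * Real.log b)) ^ 3) ∧
        |Quadruples S (fun j => Nv y (h j) (c j) (κ j) (v j)) - S.card / (V y * (k * Real.log b)) ^ 4| ≤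
          ε * (S.card / (V y * (k * Real.log b)) ^ 4)
  · rw [if_pos hgood]
    split_ifs
    · exact le_rfl
    · exact hm0
  · rw [if_neg hgood, if_neg]
    intro hall
    apply hgood
    intro hpos
    have hNm : ∀ j, Pool.Agent.N625.PT.Nm y (h j) (c j) (κ j) (v j) = Nv y (h j) (c j) (κ j) (v j) := fun _ => rfl
    have h6 := hall (by
      intro j i hi
      rw [hNm]
      have := hpos j
      positivity)
    have e0 : ∀ j (i : ℕ), Nv y (h j) (c j) (κ j) (v j) + 1 * ((i + a j : ℕ) : ℤ) = (i : ℤ) + a j + Nv y (h j) (c j) (κ j) (v j) := by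
      intro j i
      push_cast
      ring
    have t3 := h6 3 (by norm_num)
    have t4 := h6 4 (by norm_num)
    have s3 : S.filter (fun i => ∀ j : Fin 4, (j : ℕ) < 3 →
        (Pool.Agent.N625.PT.Nm y (h j) (c j) (κ j) (v j) + 1 * ((i + a j : ℕ) : ℤ)).toNat.Prime) =
        S.filter (fun n : ℕ => ((n : ℤ) + Nv y (h 0) (c 0) (κ 0) (v 0)).toNat.Prime ∧
          ((n : ℤ) + 2 + Nv y (h 1) (c 1) (κ 1) (v 1)).toNat.Prime ∧ ((n : ℤ) + 6 + Nv y (h 2) (c 2) (κ 2) (v 2)).toNat.Prime) := by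
      apply filter_congr
      intro i _
      simp only [hNm, e0]
      constructor
      · intro g
        have g0 := g 0 (by norm_num)
        have g1 := g 1 (by norm_num)
        have g2 := g 2 (by norm_num)
        rw [a0] at g0
        rw [a1] at g1
        rw [a2] at g2
        push_cast at g0 g1 g2
        rw [add_zero] at g0
        exact ⟨g0, g1, g2⟩
      · rintro ⟨g0, g1, g2⟩ j hj
        fin_cases j
        · show ((i : ℤ) + a 0 + Nv y (h 0) (c 0) (κ 0) (v 0)).toNat.Prime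
          rw [a0]
          push_cast
          rw [add_zero]
          exact g0
        · show ((i : ℤ) + a 1 + Nv y (h 1) (c 1) (κ 1) (v 1)).toNat.Prime
          rw [a1]
          push_cast
          exact g1
        · show ((i : ℤ) + a 2 + Nv y (h 2) (c 2) (κ 2) (v 2)).toNat.Prime
          rw [a2]
          push_cast
          exact g2
        · exact absurd hj (by norm_num)
    have s4 : S.filter (fun i => ∀ j : Fin 4, (j : ℕ) < 4 →
        (Pool.Agent.N625.PT.Nm y (h j) (c j) (κ j) (v j) + 1 * ((i + a j : ℕ) : ℤ)).toNat.Prime) =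
        S.filter (fun n : ℕ => ((n : ℤ) + Nv y (h 0) (c 0) (κ 0) (v 0)).toNat.Prime ∧
          ((n : ℤ) + 2 + Nv y (h 1) (c 1) (κ 1) (v 1)).toNat.Prime ∧ ((n : ℤ) + 6 + Nv y (h 2) (c 2) (κ 2) (v 2)).toNat.Prime ∧
          ((n : ℤ) + 8 + Nv y (h 3) (c 3) (κ 3) (v 3)).toNat.Prime) := by
      apply filter_congr
      intro i _
      simp only [hNm, e0]
      constructor
      · intro g
        have g0 := g 0 (by norm_num)
        have g1 := g 1 (by norm_num)
        have g2 := g 2 (by norm_num)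
        have g3 := g 3 (by norm_num)
        rw [a0] at g0
        rw [a1] at g1
        rw [a2] at g2
        rw [a3] at g3
        push_cast at g0 g1 g2 g3
        rw [add_zero] at g0
        exact ⟨g0, g1, g2, g3⟩
      · rintro ⟨g0, g1, g2, g3⟩ j _
        fin_cases j
        · show ((i : ℤ) + a 0 + Nv y (h 0) (c 0) (κ 0) (v 0)).toNat.Prime
          rw [a0]
          push_cast
          rw [add_zero]
          exact g0
        · show ((i : ℤ) + a 1 + Nv y (h 1) (c 1) (κ 1) (v 1)).toNat.Prime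
          rw [a1]
          push_cast
          exact g1
        · show ((i : ℤ) + a 2 + Nv y (h 2) (c 2) (κ 2) (v 2)).toNat.Prime
          rw [a2]
          push_cast
          exact g2
        · show ((i : ℤ) + a 3 + Nv y (h 3) (c 3) (κ 3) (v 3)).toNat.Prime
          rw [a3]
          push_cast
          exact g3
    rw [s3] at t3
    rw [s4] at t4
    exact ⟨t3, t4⟩

/-- Let `b ≥ 2`, `L` and `η > 0`, and let `v j < b ^ k`, `j < 4`, be independent random integers with `k` determinantal digits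
in base `b` (`DetDigits b L η 0 k (p j)`), let `y` be between `θ log k` and `K₁ log k` (`θ > 0` is arbitrary), `M` the
product of the primes `≤ y` (a power of `k` only), `|c j| ≤ B b ^ k`, `1 ≤ h j ≤ k ^ J`, `N_j = M h_j (c_j + κ_j v_j)`, and
let `X` be any integer with `b ^ k ≤ X k ^ C`, `X ≤ b ^ k k ^ C`. Let `F` be the set of the `n ≤ X` such that `n`, `n + 2`,
`n + 6`, `n + 8` are prime to `M h_0`, `M h_1`, `M h_2`, `M h_3` (no local obstruction). It has at least
`X / k ^ (8 K₁ + 4 J + 1)` elements. Let `S` be an ARBITRARY subset of `F` with at least `X / k ^ A` elements. Up to a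
probability of at most `ε`, if all `N_j > 0`, then the number of the `n ∈ S` such that `n + N_0`, `n + 2 + N_1`, `n + 6 + N_2`
are prime differs from `E_3 = #S / (V y log b ^ k) ^ 3` by at most `ε E_3`, and the number of the `n ∈ S` such that in addition
`n + 8 + N_3` is prime differs from `E_4 = #S / (V y log b ^ k) ^ 4` by at most `ε E_4`. -/
theorem result : ∀ b L : ℕ, 2 ≤ b → ∀ η : ℝ, 0 < η → ∀ (κ : Fin 4 → ℤ), (∀ j, κ j ≠ 0) →
    ∀ (B J C A K₁ : ℕ) (θ : ℝ), 0 < θ → ∀ ε : ℝ, 0 < ε → ε ≤ 1 → ∃ k₀ : ℕ, ∀ k : ℕ, k₀ ≤ k →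
    ∀ p : Fin 4 → ℕ → ℝ, (∀ j, DetDigits b L η 0 k (p j)) →
    ∀ y : ℕ, θ * Real.log k ≤ y → y ≤ K₁ * Real.log k →
    ∀ c : Fin 4 → ℤ, (∀ j, |c j| ≤ B * (b : ℤ) ^ k) → ∀ h : Fin 4 → ℕ, (∀ j, 1 ≤ h j ∧ h j ≤ k ^ J) →
    ∀ X : ℕ, b ^ k ≤ X * k ^ C → X ≤ b ^ k * k ^ C →
      X ≤ (Free (fun j => primorial y * h j) X).card * k ^ (8 * K₁ + 4 * J + 1) ∧
      ∀ S : Finset ℕ, S ⊆ Free (fun j => primorial y * h j) X → X ≤ S.card * k ^ A →
      ∑ v ∈ Fintype.piFinset (fun _ : Fin 4 => range (b ^ k)), (if (∀ j, 0 < Nv y (h j) (c j) (κ j) (v j)) →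
        |Triples S (fun j => Nv y (h j) (c j) (κ j) (v j)) - S.card / (V y * (k * Real.log b)) ^ 3| ≤
          ε * (S.card / (V y * (k * Real.log b)) ^ 3) ∧
        |Quadruples S (fun j => Nv y (h j) (c j) (κ j) (v j)) - S.card / (V y * (k * Real.log b)) ^ 4| ≤
          ε * (S.card / (V y * (k * Real.log b)) ^ 4) then 0 else ∏ j, p j (v j)) ≤ ε := by
  intro b L hb η hη κ hκ B J C A K₁ θ hθ ε hε hε1
  obtain ⟨k₀, h0⟩ := main b L hb η hη κ hκ B J C A K₁ θ hθ ε hε hε1
  refine ⟨k₀, fun k hk p hp y hy1 hy2 c hc h hh X hX1 hX2 => ?_⟩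
  have hfam : ∀ j, ∃ ν : ℕ → ℝ, DC b L η k ν ∧ ∀ v, 0 ≤ p j v ∧ p j v ≤ (k : ℝ) ^ 0 * ν v := fun j => fam_dc (hp j)
  choose ν hν hle using hfam
  obtain ⟨h1, h2⟩ := h0 k hk ν hν y hy1 hy2 c hc h hh X hX1 hX2
  refine ⟨h1, fun S hS hSX => le_trans (sum_le_sum fun v _ => ?_) (h2 S hS hSX)⟩
  split_ifs
  · exact le_rfl
  · refine Finset.prod_le_prod (fun j _ => (hle j (v j)).1) fun j _ => ?_
    have h3 := (hle j (v j)).2
    rwa [pow_zero, one_mul] at h3

end Pool.Agent.Results.MP_3efbeb_nt.TriplesAndQuadruplesInSets
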